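import Mathlib

namespace Pool.Agent.Results.MP_0634a4_nt.Counter

theorem result : ¬ ∀ n k : ℕ, 1 ≤ n → 1 ≤ k → ∃ z : ℤ,
    (∑ i ∈ Finset.Icc 1 n, (i : ℚ) ^ (3 * (4 * k - 3))) / (∑ i ∈ Finset.Icc 1 n, (i : ℚ) ^ 3)
      = (z : ℚ) := by
  intro H
  obtain ⟨z, hz⟩ := H 10 5 (by norm_num) (by norm_num)
  have h1 : (∑ i ∈ Finset.Icc 1 10, ((i : ℕ) : ℚ) ^ 3) = 3025 := by
    decide +kernel
  rw [h1, div_eq_iff (by norm_num)] at hz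
  have h2 : (∑ i ∈ Finset.Icc 1 10, ((i : ℕ) : ℤ) ^ (3 * (4 * 5 - 3))) = z * 3025 := by
    exact_mod_cast hz
  have h3 : (3025 : ℤ) ∣ ∑ i ∈ Finset.Icc 1 10, ((i : ℕ) : ℤ) ^ (3 * (4 * 5 - 3)) :=
    ⟨z, by rw [h2]; ring⟩
  revert h3
  decide +kernel

end Pool.Agent.Results.MP_0634a4_nt.Counter
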